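import Pool.Agent.MP_f363fd_co.Mg.Main

open Pool.Agent.MP_f363fd_co

/-- The absolute constant `C = 22` works. -/
theorem Pool.Agent.Results.MP_f363fd_co.Absolute.result
    (V : Type) [Finite V] (Γ : SimpleGraph V) (hΓ : IsVertexTransitive Γ) (n : ℕ)
    (hn : 2 ≤ n) (hnV : n < Nat.card V) (h : ¬ HasImprimitivitySystem Γ n) :
    multiwayConst Γ (n + 1) ≤ 22 * multiwayConst Γ n :=
  main Γ hΓ n hn hnV h
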